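import Pool.Agent.helper94.AP.SpecB

set_option autoImplicit false

namespace Pool.Agent.AP

open Finset Pool.Agent.helper3.FT

/-- a number whose Jacobi symbols over `n` is `-1`, and which is `1` modulo `e₀` -/
theorem CS_exists (e₀ n : ℕ) (he : 1 ≤ e₀) (he2 : 2 ∣ e₀) (hn : 1 ≤ n)
    (h : ∃ l : ℕ, l.Prime ∧ ¬ l ∣ e₀ ∧ Odd (n.factorization l)) :
    ∃ c : ℕ, c ≡ 1 [MOD e₀] ∧ Nat.Coprime c (4 * n * e₀) ∧ Odd c ∧ jacobiSym (n : ℤ) c = -1 := by
  obtain ⟨l, hl, hle, hv⟩ := h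
  have : Fact l.Prime := ⟨hl⟩
  have hl2 : l ≠ 2 := by
    rintro rfl
    exact hle he2
  have hlodd : Odd l := hl.odd_of_ne_two hl2
  obtain ⟨a, ha⟩ := FiniteField.exists_nonsquare (F := ZMod l) (by rw [ZMod.ringChar_zmod_n]; exact hl2)
  set n' := n / l ^ n.factorization l with hn'
  have hnn : l ^ n.factorization l * n' = n := Nat.ordProj_mul_ordCompl_eq_self n l
  have hln' : ¬ l ∣ n' := Nat.not_dvd_ordCompl hl (by omega)
  have hn'0 : 0 < n' := Nat.ordCompl_pos l (by omega)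
  have hcop : Nat.Coprime (8 * e₀ * n') l := by
    rw [Nat.coprime_comm, Nat.Prime.coprime_iff_not_dvd hl]
    intro hd
    rcases hl.dvd_mul.1 hd with h1 | h1
    · rcases hl.dvd_mul.1 h1 with h2 | h2
      · have h3 : l ∣ 2 ^ 3 := h2
        have h4 := hl.dvd_of_dvd_pow h3
        exact hl2 ((Nat.prime_dvd_prime_iff_eq hl Nat.prime_two).1 h4)
      · exact hle h2
    · exact hln' h1
  obtain ⟨c, hc1, hc2⟩ := Nat.chineseRemainder hcop 1 a.val
  have hc4 : c ≡ 1 [MOD 4] := by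
    apply hc1.of_dvd
    exact ⟨2 * e₀ * n', by ring⟩
  have hce : c ≡ 1 [MOD e₀] := hc1.of_dvd ⟨8 * n', by ring⟩
  have hcn' : c ≡ 1 [MOD 4 * n'] := hc1.of_dvd ⟨2 * e₀, by ring⟩
  have hcodd : Odd c := by
    have h1 : c % 4 = 1 := hc4
    rw [Nat.odd_iff]
    omega
  have hcl : (c : ZMod l) = a := by
    have h1 : (c : ZMod l) = ((a.val : ℕ) : ZMod l) := (ZMod.natCast_eq_natCast_iff _ _ _).2 hc2
    rw [h1, ZMod.natCast_zmod_val]
  have hcl0 : Nat.Coprime c l := by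
    rw [Nat.coprime_comm, Nat.Prime.coprime_iff_not_dvd hl]
    intro hd
    have h1 : (c : ZMod l) = 0 := (ZMod.natCast_eq_zero_iff _ _).2 hd
    rw [hcl] at h1
    apply ha
    rw [h1]
    exact ⟨0, by simp⟩
  refine ⟨c, hce, ?_, hcodd, ?_⟩
  · have h1 : Nat.Coprime c (8 * e₀ * n') := by
      have h2 := hc1.gcd_eq
      rw [Nat.gcd_one_left] at h2
      exact h2
    have h2 : Nat.Coprime c (l ^ n.factorization l) := Nat.Coprime.pow_right _ hcl0
    have h3 : Nat.Coprime c ((8 * e₀ * n') * l ^ n.factorization l) := Nat.Coprime.mul_right h1 h2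
    apply Nat.Coprime.coprime_dvd_right _ h3
    refine ⟨2, ?_⟩
    calc 8 * e₀ * n' * l ^ n.factorization l = 8 * e₀ * (l ^ n.factorization l * n') := by ring
      _ = 8 * e₀ * n := by rw [hnn]
      _ = 4 * n * e₀ * 2 := by ring
  · have hnn' : (n : ℤ) = (l : ℤ) ^ n.factorization l * (n' : ℤ) := by exact_mod_cast hnn.symm
    rw [hnn', jacobiSym.mul_left, jacobiSym.pow_left]
    have h1 : jacobiSym (n' : ℤ) c = 1 := by
      rw [jacobiSym.mod_right' n' hcodd]
      have h2 : c % (4 * n') = 1 % (4 * n') := hcn'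
      rw [h2, ← jacobiSym.mod_right' n' odd_one, jacobiSym.one_right]
    have h2 : jacobiSym (l : ℤ) c = -1 := by
      rw [← jacobiSym.quadratic_reciprocity_one_mod_four hc4 hlodd, ← jacobiSym.legendreSym.to_jacobiSym,
        legendreSym.eq_neg_one_iff]
      push_cast
      rw [hcl]
      exact ha
    rw [h1, h2, hv.neg_one_pow]
    norm_num

theorem CS_shift (f : ℕ → ℤ) (N : ℕ) (hp : ∀ d, f (d + N) = f d) (a : ℕ) :
    ∑ i ∈ range N, f (a + i) = ∑ i ∈ range N, f i := by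
  induction a with
  | zero => exact Finset.sum_congr rfl fun i _ => by rw [zero_add]
  | succ a ih =>
    rw [← ih]
    have h1 := Finset.sum_range_succ (fun i => f (a + i)) N
    have h2 := Finset.sum_range_succ' (fun i => f (a + i)) N
    have h3 : f (a + N) = f (a + 0) := by rw [hp, add_zero]
    have h4 : ∑ i ∈ range N, f (a + 1 + i) = ∑ i ∈ range N, f (a + (i + 1)) :=
      Finset.sum_congr rfl fun i _ => by rw [show a + 1 + i = a + (i + 1) by ring]
    rw [h4]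
    linarith

theorem CS_blocks (f : ℕ → ℤ) (N : ℕ) (hp : ∀ d, f (d + N) = f d) (h0 : ∑ i ∈ range N, f i = 0)
    (a r k : ℕ) : ∑ i ∈ range (r + N * k), f (a + i) = ∑ i ∈ range r, f (a + i) := by
  induction k with
  | zero => rfl
  | succ k ih =>
    have h1 : r + N * (k + 1) = (r + N * k) + N := by ring
    rw [h1, Finset.sum_range_add, ih]
    have h2 : ∑ x ∈ range N, f (a + (r + N * k + x)) = 0 := by
      rw [← h0, ← CS_shift f N hp (a + (r + N * k))]
      exact Finset.sum_congr rfl fun i _ => by rw [add_assoc a (r + N * k) i]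
    rw [h2, add_zero]

theorem CS_complete (e₀ n s : ℕ) (he : 1 ≤ e₀) (he2 : 2 ∣ e₀) (hn : 1 ≤ n) (hs : Nat.Coprime s e₀)
    (h : ∃ l : ℕ, l.Prime ∧ ¬ l ∣ e₀ ∧ Odd (n.factorization l)) (f : ℕ → ℤ)
    (hf : ∀ d, f d = if d ≡ s [MOD e₀] then jacobiSym (n : ℤ) d else 0) :
    (∀ d, f (d + 4 * n * e₀) = f d) ∧ ∑ i ∈ range (4 * n * e₀), f i = 0 := by
  have hodd : ∀ d, d ≡ s [MOD e₀] → Odd d := by
    intro d hd
    have h1 : Nat.Coprime d e₀ := by
      have h2 := hd.gcd_eq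
      unfold Nat.Coprime
      rw [h2]
      exact hs
    have h3 : Nat.Coprime d 2 := Nat.Coprime.coprime_dvd_right he2 h1
    exact Nat.coprime_two_right.1 h3
  have hmod : ∀ d d', d ≡ d' [MOD 4 * n * e₀] → f d = f d' := by
    intro d d' hdd
    have h1 : d ≡ d' [MOD e₀] := hdd.of_dvd ⟨4 * n, by ring⟩
    have h2 : d ≡ d' [MOD 4 * n] := hdd.of_dvd ⟨e₀, by ring⟩
    rw [hf, hf]
    by_cases h3 : d ≡ s [MOD e₀]
    · have h4 : d' ≡ s [MOD e₀] := h1.symm.trans h3
      rw [if_pos h3, if_pos h4, jacobiSym.mod_right' n (hodd d h3), jacobiSym.mod_right' n (hodd d' h4)]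
      have h5 : d % (4 * n) = d' % (4 * n) := h2
      rw [h5]
    · have h4 : ¬ d' ≡ s [MOD e₀] := fun h5 => h3 (h1.trans h5)
      rw [if_neg h3, if_neg h4]
  refine ⟨fun d => hmod _ _ (by simp), ?_⟩
  obtain ⟨c, hc1, hc2, hc3, hc4⟩ := CS_exists e₀ n he he2 hn h
  set N := 4 * n * e₀ with hN
  have hN0 : 0 < N := by positivity
  have : NeZero N := ⟨hN0.ne'⟩
  have hneg : ∀ d, f (c * d) = - f d := by
    intro d
    have h1 : c * d ≡ s [MOD e₀] ↔ d ≡ s [MOD e₀] := by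
      have h2 : c * d ≡ d [MOD e₀] := by
        have h3 := hc1.mul_right d
        rwa [one_mul] at h3
      exact ⟨fun h3 => h2.symm.trans h3, fun h3 => h2.trans h3⟩
    rw [hf, hf]
    by_cases h3 : d ≡ s [MOD e₀]
    · rw [if_pos h3, if_pos (h1.2 h3)]
      have : NeZero c := ⟨by rintro rfl; simp at hc3⟩
      have h5 : NeZero d := ⟨by
        rintro rfl
        have h6 := hodd 0 h3
        simp at h6⟩
      rw [jacobiSym.mul_right, hc4]
      ring
    · rw [if_neg h3, if_neg (fun h4 => h3 (h1.1 h4)), neg_zero]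
  have hval : ∀ d : ℕ, f d = f ((d : ZMod N).val) := by
    intro d
    apply hmod
    rw [ZMod.val_natCast]
    exact (Nat.mod_modEq d N).symm
  have hsum : ∑ i ∈ range N, f i = ∑ x : ZMod N, f x.val := by
    symm
    refine Finset.sum_bij (fun x _ => x.val) ?_ ?_ ?_ ?_
    · intro x _
      exact Finset.mem_range.2 (ZMod.val_lt x)
    · intro x _ y _ hxy
      exact ZMod.val_injective N hxy
    · intro i hi
      exact ⟨(i : ZMod N), Finset.mem_univ _, ZMod.val_cast_of_lt (Finset.mem_range.1 hi)⟩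
    · intro x _
      rfl
  rw [hsum]
  have hu : IsUnit (c : ZMod N) := (ZMod.isUnit_iff_coprime c N).2 hc2
  have hneg2 : ∑ x : ZMod N, f x.val = - ∑ x : ZMod N, f x.val := by
    rw [← Finset.sum_neg_distrib]
    refine (Finset.sum_bij (fun x _ => (c : ZMod N) * x) ?_ ?_ ?_ ?_).symm
    · intro x _
      exact Finset.mem_univ _
    · intro x _ y _ hxy
      exact hu.mul_left_cancel hxy
    · intro y _
      obtain ⟨u, hu⟩ := hu
      refine ⟨(↑u⁻¹ : ZMod N) * y, Finset.mem_univ _, ?_⟩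
      rw [← hu, ← mul_assoc, Units.mul_inv, one_mul]
    · intro x _
      rw [← hneg, hval (c * x.val)]
      congr 2
      push_cast
      rw [ZMod.natCast_zmod_val]
  linarith

theorem CS_short (e₀ n s : ℕ) (he : 1 ≤ e₀) (hn : 1 ≤ n) (A r : ℕ) (hr : r < 4 * n * e₀) :
    |∑ d ∈ (Ioc A (A + r)).filter (fun d => d ≡ s [MOD e₀]), jacobiSym (n : ℤ) d| ≤ 4 * (n : ℤ) := by
  have h1 : |∑ d ∈ (Ioc A (A + r)).filter (fun d => d ≡ s [MOD e₀]), jacobiSym (n : ℤ) d| ≤
      (((Ioc A (A + r)).filter (fun d => d ≡ s [MOD e₀])).card : ℤ) := by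
    refine (Finset.abs_sum_le_sum_abs _ _).trans ?_
    rw [Finset.card_eq_sum_ones, Nat.cast_sum]
    apply Finset.sum_le_sum
    intro d _
    rcases jacobiSym.trichotomy (n : ℤ) d with h | h | h <;> rw [h] <;> simp
  refine h1.trans ?_
  rw [Nat.Ioc_filter_modEq_card _ _ (by omega)]
  apply max_le
  · have he0 : (0 : ℚ) < (e₀ : ℚ) := by exact_mod_cast he
    have h2 : ((A + r : ℕ) : ℚ) = (A : ℚ) + r := by push_cast; ring
    have h3 := Int.floor_le ((((A + r : ℕ) : ℚ) - (s : ℚ)) / (e₀ : ℚ))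
    have h4 := Int.lt_floor_add_one (((A : ℚ) - (s : ℚ)) / (e₀ : ℚ))
    have h5 : (r : ℚ) / e₀ < 4 * n := by
      rw [div_lt_iff₀ he0]
      exact_mod_cast hr
    have h6 : (((A + r : ℕ) : ℚ) - (s : ℚ)) / (e₀ : ℚ) = ((A : ℚ) - (s : ℚ)) / (e₀ : ℚ) + r / e₀ := by
      rw [h2]
      ring
    have h7 : ((⌊(((A + r : ℕ) : ℚ) - (s : ℚ)) / (e₀ : ℚ)⌋ - ⌊((A : ℚ) - (s : ℚ)) / (e₀ : ℚ)⌋ : ℤ) : ℚ) <
        ((4 * (n : ℤ) + 1 : ℤ) : ℚ) := by
      rw [Int.cast_sub, h6]
      rw [h6] at h3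
      push_cast
      linarith
    have h8 := Int.cast_lt.1 h7
    omega
  · positivity

theorem CS : CS_stmt := by
  intro e₀ n s he he2 hn hs h A B
  rcases le_total B A with hBA | hAB
  · rw [Finset.Ioc_eq_empty (by omega)]
    simp
  · obtain ⟨hp, h0⟩ := CS_complete e₀ n s he he2 hn hs h
      (fun d => if d ≡ s [MOD e₀] then jacobiSym (n : ℤ) d else 0) (fun d => rfl)
    have hN0 : 0 < 4 * n * e₀ := by positivity
    have key : ∀ L : ℕ, ∑ d ∈ (Ioc A (A + L)).filter (fun d => d ≡ s [MOD e₀]), jacobiSym (n : ℤ) d =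
        ∑ i ∈ range L, (if (A + 1 + i) ≡ s [MOD e₀] then jacobiSym (n : ℤ) ((A + 1 + i : ℕ)) else 0) := by
      intro L
      rw [Finset.sum_filter, ← Finset.Ico_add_one_add_one_eq_Ioc, Finset.sum_Ico_eq_sum_range]
      have h2 : A + L + 1 - (A + 1) = L := by omega
      rw [h2]
    have hL : B = A + ((B - A) % (4 * n * e₀) + 4 * n * e₀ * ((B - A) / (4 * n * e₀))) := by
      rw [Nat.mod_add_div]
      omega
    rw [hL, key]
    have h3 := CS_blocks _ (4 * n * e₀) hp h0 (A + 1) ((B - A) % (4 * n * e₀)) ((B - A) / (4 * n * e₀))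
    rw [h3, ← key]
    exact CS_short e₀ n s he hn A _ (Nat.mod_lt _ hN0)

end Pool.Agent.AP
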