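import Pool.Agent.helper14.AV.Spec

/-!
# Families of segments with a binary space partition without cuts (MP_801ee0_co)
-/

set_option autoImplicit false

namespace Pool.Agent.helper76.AP

open Pool.Agent.helper14.AV

/-- the segment `j` is strictly on the side `b` of the line of `v` -/
def OnSide {ι : Type} (A B : ι → ℝ × ℝ) (b : Bool) (v j : ι) : Prop :=
  0 < sg b * D (A v) (B v) (A j) ∧ 0 < sg b * D (A v) (B v) (B j)

/-- binary space partition without cuts: `I` = the segments inside the cell, `W` = the segments on its boundary; the line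
of some `v ∈ I` misses all other segments of `I` and `W`, and both parts of the cell have such a partition -/
inductive FreeBSP {ι : Type} [DecidableEq ι] (A B : ι → ℝ × ℝ) : Finset ι → Finset ι → Prop
  | empty (W : Finset ι) : FreeBSP A B ∅ W
  | cut (v : ι) (I₁ I₂ W₁ W₂ : Finset ι) : (∀ j ∈ I₁ ∪ W₁, OnSide A B true v j) →
      (∀ j ∈ I₂ ∪ W₂, OnSide A B false v j) → FreeBSP A B I₁ (insert v W₁) → FreeBSP A B I₂ (insert v W₂) →
      FreeBSP A B (insert v (I₁ ∪ I₂)) (W₁ ∪ W₂)

theorem onSide_self {ι : Type} (A B : ι → ℝ × ℝ) (b : Bool) (v : ι) : ¬ OnSide A B b v v := by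
  rintro ⟨h, -⟩
  have : D (A v) (B v) (A v) = 0 := by
    unfold D
    ring
  rw [this, mul_zero] at h
  exact lt_irrefl _ h

theorem onSide_not {ι : Type} (A B : ι → ℝ × ℝ) (v j : ι) (h1 : OnSide A B true v j) (h2 : OnSide A B false v j) :
    False := by
  have a1 := h1.1
  have a2 := h2.1
  simp only [sg, if_true, Bool.false_eq_true, if_false] at a1 a2
  linarith

/-- the tree of cells -/
def PartW {ι : Type} (A B : ι → ℝ × ℝ) (I W : Finset ι) : Prop :=
  ∃ (V : Type) (_ : Fintype V) (T : SimpleGraph V) (e : ι → Sym2 V) (anc : V → Finset ι)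
    (τ : V → ι → Bool) (loc : ι → V),
    T.Connected ∧ Fintype.card V = I.card + 1 ∧ Set.InjOn e (I : Set ι) ∧
    e '' (I : Set ι) = T.edgeSet ∧ (∀ c, anc c ⊆ I) ∧
    (∀ i ∈ I, ∀ c, c ∈ e i → i ∈ anc c ∧ ∀ u ∈ anc c, u ≠ i → OnSide A B (τ c u) u i) ∧
    (∀ c, ∀ j ∈ I, ∃ u ∈ anc c, u = j ∨ OnSide A B (!(τ c u)) u j) ∧
    (∀ c c', c ≠ c' → ∃ u ∈ anc c, u ∈ anc c' ∧ τ c u ≠ τ c' u) ∧
    (∀ x ∈ W, ∀ u ∈ anc (loc x), OnSide A B (τ (loc x) u) u x)

theorem part_empty {ι : Type} (A B : ι → ℝ × ℝ) (W : Finset ι) : PartW A B ∅ W := by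
  refine ⟨Unit, inferInstance, ⊥, fun _ => s((), ()), fun _ => ∅, fun _ _ => true, fun _ => (),
    ?_, ?_, ?_, ?_, ?_, ?_, ?_, ?_, ?_⟩
  · exact { preconnected := fun a b => by
              rw [Subsingleton.elim a b]
            nonempty := ⟨()⟩ }
  · simp
  · intro a ha
    exact absurd ha (by simp)
  · simp
  · intro c
    simp
  · intro i hi
    exact absurd hi (Finset.notMem_empty i)
  · intro c j hj
    exact absurd hj (Finset.notMem_empty j)
  · intro c c' h
    exact absurd (Subsingleton.elim c c') h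
  · intro x _ u hu
    exact absurd hu (Finset.notMem_empty u)

theorem part_cut (hJOI : JOI_stmt) {ι : Type} [DecidableEq ι] (A B : ι → ℝ × ℝ) (v : ι) (I₁ I₂ W₁ W₂ : Finset ι)
    (s1 : ∀ j ∈ I₁ ∪ W₁, OnSide A B true v j) (s2 : ∀ j ∈ I₂ ∪ W₂, OnSide A B false v j)
    (hL : PartW A B I₁ (insert v W₁)) (hR : PartW A B I₂ (insert v W₂)) :
    PartW A B (insert v (I₁ ∪ I₂)) (W₁ ∪ W₂) := by
  obtain ⟨VL, fL, TL, eL, aL, tL, lL, L1, L2, L3, L4, L5, L6, L7, L8, L9⟩ := hL
  obtain ⟨VR, fR, TR, eR, aR, tR, lR, R1, R2, R3, R4, R5, R6, R7, R8, R9⟩ := hR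
  obtain ⟨K, hK, hE⟩ := hJOI VL VR TL TR (lL v) (lR v) L1 R1
  have i1s : ∀ j ∈ I₁, OnSide A B true v j := fun j hj => s1 j (Finset.mem_union_left _ hj)
  have w1s : ∀ j ∈ W₁, OnSide A B true v j := fun j hj => s1 j (Finset.mem_union_right _ hj)
  have i2s : ∀ j ∈ I₂, OnSide A B false v j := fun j hj => s2 j (Finset.mem_union_left _ hj)
  have w2s : ∀ j ∈ W₂, OnSide A B false v j := fun j hj => s2 j (Finset.mem_union_right _ hj)
  have hv1 : v ∉ I₁ := fun h => onSide_self A B true v (i1s v h)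
  have hv2 : v ∉ I₂ := fun h => onSide_self A B false v (i2s v h)
  have h12 : Disjoint I₁ I₂ := by
    rw [Finset.disjoint_left]
    intro j h1 h2
    exact onSide_not A B v j (i1s j h1) (i2s j h2)
  have haL : ∀ c, ∀ u ∈ aL c, u ∈ I₁ ∧ u ≠ v := by
    intro c u hu
    have h1 := L5 c hu
    exact ⟨h1, fun h => hv1 (h ▸ h1)⟩
  have haR : ∀ c, ∀ u ∈ aR c, u ∈ I₂ ∧ u ≠ v := by
    intro c u hu
    have h1 := R5 c hu
    exact ⟨h1, fun h => hv2 (h ▸ h1)⟩
  obtain ⟨e, ev, eT, eF⟩ : ∃ e : ι → Sym2 (VL ⊕ VR), e v = s(Sum.inl (lL v), Sum.inr (lR v)) ∧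
      (∀ i ∈ I₁, e i = (eL i).map Sum.inl) ∧
      (∀ i ∈ I₂, e i = (eR i).map Sum.inr) := by
    refine ⟨fun i => if i = v then s(Sum.inl (lL v), Sum.inr (lR v)) else
      if i ∈ I₁ then (eL i).map Sum.inl else (eR i).map Sum.inr, ?_, ?_, ?_⟩
    · simp
    · intro i h1
      have h2 : i ≠ v := fun h => hv1 (h ▸ h1)
      simp [h1, h2]
    · intro i h1
      have h2 : i ≠ v := fun h => hv2 (h ▸ h1)
      have h3 : i ∉ I₁ := fun h => Finset.disjoint_left.1 h12 h h1
      simp [h2, h3]
  have tri : ∀ i ∈ insert v (I₁ ∪ I₂), i = v ∨ i ∈ I₁ ∨ i ∈ I₂ := by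
    intro i hi
    rw [Finset.mem_insert, Finset.mem_union] at hi
    exact hi
  have noLR : ∀ (z : Sym2 VL) (z' : Sym2 VR), z.map Sum.inl ≠ z'.map (Sum.inr : VR → VL ⊕ VR) := by
    intro z z' h
    induction z with
    | h a b =>
      have h1 : (Sum.inl a : VL ⊕ VR) ∈ z'.map (Sum.inr : VR → VL ⊕ VR) := by
        rw [← h]
        exact Sym2.mem_map.2 ⟨a, Sym2.mem_mk_left a b, rfl⟩
      obtain ⟨c, _, hc⟩ := Sym2.mem_map.1 h1
      exact Sum.inr_ne_inl hc
  have nov1 : ∀ z : Sym2 VL, s(Sum.inl (lL v), Sum.inr (lR v)) ≠ z.map (Sum.inl : VL → VL ⊕ VR) := by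
    intro z h
    have h1 : (Sum.inr (lR v) : VL ⊕ VR) ∈ z.map (Sum.inl : VL → VL ⊕ VR) := by
      rw [← h]
      exact Sym2.mem_mk_right _ _
    obtain ⟨c, _, hc⟩ := Sym2.mem_map.1 h1
    exact Sum.inl_ne_inr hc
  have nov2 : ∀ z : Sym2 VR, s(Sum.inl (lL v), Sum.inr (lR v)) ≠ z.map (Sum.inr : VR → VL ⊕ VR) := by
    intro z h
    have h1 : (Sum.inl (lL v) : VL ⊕ VR) ∈ z.map (Sum.inr : VR → VL ⊕ VR) := by
      rw [← h]
      exact Sym2.mem_mk_left _ _
    obtain ⟨c, _, hc⟩ := Sym2.mem_map.1 h1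
    exact Sum.inl_ne_inr hc.symm
  refine ⟨VL ⊕ VR, inferInstance, K, e,
    Sum.elim (fun c => insert v (aL c)) (fun c => insert v (aR c)),
    Sum.elim (fun c u => if u = v then true else tL c u) (fun c u => if u = v then false else tR c u),
    fun x => if x ∈ W₁ then Sum.inl (lL x) else Sum.inr (lR x),
    hK, ?_, ?_, ?_, ?_, ?_, ?_, ?_, ?_⟩
  · rw [Fintype.card_sum, L2, R2, Finset.card_insert_of_notMem (by
      rw [Finset.mem_union]
      rintro (h | h)
      · exact hv1 h
      · exact hv2 h), Finset.card_union_of_disjoint h12]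
    omega
  · intro i hi j hj hij
    rcases tri i hi with h | i1 | i1
    · rcases tri j hj with h' | j1 | j1
      · exact h.trans h'.symm
      · rw [h, ev, eT j j1] at hij
        exact absurd hij (nov1 _)
      · rw [h, ev, eF j j1] at hij
        exact absurd hij (nov2 _)
    · rcases tri j hj with h | j1 | j1
      · rw [h, ev, eT i i1] at hij
        exact absurd hij.symm (nov1 _)
      · rw [eT i i1, eT j j1] at hij
        exact L3 i1 j1 (Sym2.map.injective Sum.inl_injective hij)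
      · rw [eT i i1, eF j j1] at hij
        exact absurd hij (noLR _ _)
    · rcases tri j hj with h | j1 | j1
      · rw [h, ev, eF i i1] at hij
        exact absurd hij.symm (nov2 _)
      · rw [eF i i1, eT j j1] at hij
        exact absurd hij.symm (noLR _ _)
      · rw [eF i i1, eF j j1] at hij
        exact R3 i1 j1 (Sym2.map.injective Sum.inr_injective hij)
  · rw [hE, ← L4, ← R4]
    ext z
    constructor
    · rintro ⟨i, hi, rfl⟩
      rcases tri i hi with rfl | i1 | i1
      · right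
        exact ev
      · left
        left
        exact ⟨eL i, ⟨i, i1, rfl⟩, (eT i i1).symm⟩
      · left
        right
        exact ⟨eR i, ⟨i, i1, rfl⟩, (eF i i1).symm⟩
    · rintro ((⟨_, ⟨i, hi, rfl⟩, rfl⟩ | ⟨_, ⟨i, hi, rfl⟩, rfl⟩) | h)
      · exact ⟨i, Finset.mem_insert_of_mem (Finset.mem_union_left _ hi), eT i hi⟩
      · exact ⟨i, Finset.mem_insert_of_mem (Finset.mem_union_right _ hi), eF i hi⟩
      · exact ⟨v, Finset.mem_insert_self _ _, ev.trans h.symm⟩
  · rintro (c | c)
    · intro u hu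
      rcases Finset.mem_insert.1 hu with rfl | h
      · exact Finset.mem_insert_self _ _
      · exact Finset.mem_insert_of_mem (Finset.mem_union_left _ (haL c u h).1)
    · intro u hu
      rcases Finset.mem_insert.1 hu with rfl | h
      · exact Finset.mem_insert_self _ _
      · exact Finset.mem_insert_of_mem (Finset.mem_union_right _ (haR c u h).1)
  · intro i hi c hc
    rcases tri i hi with rfl | i1 | i1
    · rw [ev, Sym2.mem_iff] at hc
      rcases hc with rfl | rfl
      · refine ⟨Finset.mem_insert_self _ _, ?_⟩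
        intro u hu hne
        have hu' : u ∈ aL (lL i) := (Finset.mem_insert.1 hu).resolve_left hne
        have h9 := L9 i (Finset.mem_insert_self _ _) u hu'
        simpa [hne] using h9
      · refine ⟨Finset.mem_insert_self _ _, ?_⟩
        intro u hu hne
        have hu' : u ∈ aR (lR i) := (Finset.mem_insert.1 hu).resolve_left hne
        have h9 := R9 i (Finset.mem_insert_self _ _) u hu'
        simpa [hne] using h9
    · rw [eT i i1] at hc
      obtain ⟨c', hc', rfl⟩ := Sym2.mem_map.1 hc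
      obtain ⟨h1, h2⟩ := L6 i i1 c' hc'
      refine ⟨Finset.mem_insert_of_mem h1, ?_⟩
      intro u hu hne
      rcases Finset.mem_insert.1 hu with rfl | h
      · simpa using i1s i i1
      · have := h2 u h hne
        simpa [(haL c' u h).2] using this
    · rw [eF i i1] at hc
      obtain ⟨c', hc', rfl⟩ := Sym2.mem_map.1 hc
      obtain ⟨h1, h2⟩ := R6 i i1 c' hc'
      refine ⟨Finset.mem_insert_of_mem h1, ?_⟩
      intro u hu hne
      rcases Finset.mem_insert.1 hu with rfl | h
      · simpa using i2s i i1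
      · have := h2 u h hne
        simpa [(haR c' u h).2] using this
  · rintro (c | c) j hj
    · rcases tri j hj with rfl | i1 | i1
      · exact ⟨j, Finset.mem_insert_self _ _, Or.inl rfl⟩
      · obtain ⟨u, hu, h⟩ := L7 c j i1
        refine ⟨u, Finset.mem_insert_of_mem hu, h.imp id fun h' => ?_⟩
        simpa [(haL c u hu).2] using h'
      · exact ⟨v, Finset.mem_insert_self _ _, Or.inr (by simpa using i2s j i1)⟩
    · rcases tri j hj with rfl | i1 | i1
      · exact ⟨j, Finset.mem_insert_self _ _, Or.inl rfl⟩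
      · exact ⟨v, Finset.mem_insert_self _ _, Or.inr (by simpa using i1s j i1)⟩
      · obtain ⟨u, hu, h⟩ := R7 c j i1
        refine ⟨u, Finset.mem_insert_of_mem hu, h.imp id fun h' => ?_⟩
        simpa [(haR c u hu).2] using h'
  · rintro (c | c) (c' | c') hne
    · obtain ⟨u, h1, h2, h3⟩ := L8 c c' (fun h => hne (by rw [h]))
      refine ⟨u, Finset.mem_insert_of_mem h1, Finset.mem_insert_of_mem h2, ?_⟩
      simpa [(haL c u h1).2] using h3
    · exact ⟨v, Finset.mem_insert_self _ _, Finset.mem_insert_self _ _, by simp⟩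
    · exact ⟨v, Finset.mem_insert_self _ _, Finset.mem_insert_self _ _, by simp⟩
    · obtain ⟨u, h1, h2, h3⟩ := R8 c c' (fun h => hne (by rw [h]))
      refine ⟨u, Finset.mem_insert_of_mem h1, Finset.mem_insert_of_mem h2, ?_⟩
      simpa [(haR c u h1).2] using h3
  · intro x hx u hu
    by_cases hs : x ∈ W₁
    · simp only [hs, if_true, Sum.elim_inl] at hu ⊢
      rcases Finset.mem_insert.1 hu with rfl | h
      · simpa using w1s x hs
      · have := L9 x (Finset.mem_insert_of_mem hs) u h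
        simpa [(haL _ u h).2] using this
    · have hs2 : x ∈ W₂ := (Finset.mem_union.1 hx).resolve_left hs
      simp only [hs, if_false, Sum.elim_inr] at hu ⊢
      rcases Finset.mem_insert.1 hu with rfl | h
      · simpa using w2s x hs2
      · have := R9 x (Finset.mem_insert_of_mem hs2) u h
        simpa [(haR _ u h).2] using this

theorem part_of (hJOI : JOI_stmt) {ι : Type} [DecidableEq ι] (A B : ι → ℝ × ℝ) (I W : Finset ι)
    (h : FreeBSP A B I W) : PartW A B I W := by
  induction h with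
  | empty W => exact part_empty A B W
  | cut v I₁ I₂ W₁ W₂ s1 s2 _ _ ih1 ih2 => exact part_cut hJOI A B v I₁ I₂ W₁ W₂ s1 s2 ih1 ih2

theorem onSide_disjoint {ι : Type} (A B : ι → ℝ × ℝ) (b : Bool) (v j : ι) (h : OnSide A B b v j) :
    Disjoint (segment ℝ (A v) (B v)) (segment ℝ (A j) (B j)) := by
  rw [Set.disjoint_left]
  rintro _ ⟨s, t, hs, ht, hst, rfl⟩ ⟨s', t', hs', ht', hst', h2⟩
  have e1 : D (A v) (B v) (s • A v + t • B v) = 0 := by
    have : s = 1 - t := by linarith
    subst this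
    simp only [D, Prod.fst_add, Prod.snd_add, Prod.smul_fst, Prod.smul_snd, smul_eq_mul]
    ring
  rw [← h2] at e1
  have e2 : sg b * D (A v) (B v) (s' • A j + t' • B j) =
      s' * (sg b * D (A v) (B v) (A j)) + t' * (sg b * D (A v) (B v) (B j)) := by
    have : s' = 1 - t' := by linarith
    subst this
    simp only [D, Prod.fst_add, Prod.snd_add, Prod.smul_fst, Prod.smul_snd, smul_eq_mul]
    ring
  rw [e1, mul_zero] at e2
  obtain ⟨h3, h4⟩ := h
  rcases eq_or_lt_of_le hs' with h5 | h5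
  · have h6 : t' = 1 := by linarith
    rw [← h5, h6] at e2
    linarith
  · have h7 : 0 < s' * (sg b * D (A v) (B v) (A j)) := mul_pos h5 h3
    have h8 : 0 ≤ t' * (sg b * D (A v) (B v) (B j)) := mul_nonneg ht' h4.le
    linarith

theorem set_free (hJOI : JOI_stmt) (ι : Type) [Fintype ι] [DecidableEq ι] (A B : ι → ℝ × ℝ)
    (hne : ∀ i, A i ≠ B i) (hF : FreeBSP A B Finset.univ ∅) :
    ∃ (V : Type) (_ : Fintype V) (T : SimpleGraph V) (e : ι → Sym2 V) (anc : V → Finset ι)
      (τ : V → ι → Bool), Fintype.card V = Fintype.card ι + 1 ∧ Setup A B T e anc τ := by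
  obtain ⟨V, hV, T, e, anc, τ, loc, hconn, hcard, hinj, himg, hanc, hinc, hsep, hcells, hloc⟩ :=
    part_of hJOI A B Finset.univ ∅ hF
  rw [Finset.card_univ] at hcard
  rw [Finset.coe_univ] at hinj himg
  have hinj2 : Function.Injective e := Set.injOn_univ.1 hinj
  have hrange : Set.range e = T.edgeSet := by
    rw [← Set.image_univ]
    exact himg
  refine ⟨V, hV, T, e, anc, τ, hcard, ?_, hinj2, hrange, hne, fun i c hc => ?_, fun c j => ?_, hcells⟩
  · rw [SimpleGraph.isTree_iff_connected_and_card]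
    refine ⟨hconn, ?_⟩
    rw [← hrange, Nat.card_congr (Equiv.ofInjective e hinj2).symm, Nat.card_eq_fintype_card,
      Nat.card_eq_fintype_card, hcard]
  · obtain ⟨h1, h2⟩ := hinc i (Finset.mem_univ i) c hc
    exact ⟨h1, fun u hu hui => h2 u hu hui⟩
  · obtain ⟨u, hu, h1⟩ := hsep c j (Finset.mem_univ j)
    refine ⟨u, hu, h1.imp id ?_⟩
    rintro ⟨h2, h3⟩
    cases h4 : τ c u with
    | true =>
      simp only [h4, sg, Bool.not_true, Bool.false_eq_true, if_false, if_true] at h2 h3 ⊢
      constructor <;> linarith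
    | false =>
      simp only [h4, sg, Bool.not_false, Bool.false_eq_true, if_false, if_true] at h2 h3 ⊢
      constructor <;> linarith

/-- different segments of such a family are disjoint -/
theorem free_disjoint (hJOI : JOI_stmt) {ι : Type} [Fintype ι] [DecidableEq ι] (A B : ι → ℝ × ℝ)
    (hne : ∀ i, A i ≠ B i) (hF : FreeBSP A B Finset.univ ∅) :
    ∀ i j, i ≠ j → Disjoint (segment ℝ (A i) (B i)) (segment ℝ (A j) (B j)) := by
  obtain ⟨V, hV, T, e, anc, τ, hcard, hT, hinj, hran, -, hinc, hsep, -⟩ := set_free hJOI ι A B hne hF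
  intro i j hij
  have hi : e i ∈ T.edgeSet := by
    rw [← hran]
    exact ⟨i, rfl⟩
  obtain ⟨c, hc⟩ : ∃ c, c ∈ e i := ⟨_, Sym2.out_fst_mem (e i)⟩
  obtain ⟨hic, hiu⟩ := hinc i c hc
  obtain ⟨u, hu, h⟩ := hsep c j
  rcases eq_or_ne u i with h1 | h1
  · rcases h with h2 | h2
    · exact absurd (h1.symm.trans h2) hij
    · rw [h1] at h2
      refine onSide_disjoint A B (!(τ c i)) i j ?_
      cases h4 : τ c i with
      | true =>
        simp only [h4, sg, OnSide, Bool.not_true, Bool.false_eq_true, if_false, if_true] at h2 ⊢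
        constructor <;> linarith [h2.1, h2.2]
      | false =>
        simp only [h4, sg, OnSide, Bool.not_false, Bool.false_eq_true, if_false, if_true] at h2 ⊢
        constructor <;> linarith [h2.1, h2.2]
  · have h3 := hiu u hu h1
    rcases h with h2 | h2
    · rw [h2] at h3
      exact (onSide_disjoint A B (τ c j) j i h3).symm
    · rw [Set.disjoint_left]
      rintro _ ⟨s, t, hs, ht, hst, rfl⟩ ⟨s', t', hs', ht', hst', h5⟩
      have e1 : sg (τ c u) * D (A u) (B u) (s • A i + t • B i) =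
          s * (sg (τ c u) * D (A u) (B u) (A i)) + t * (sg (τ c u) * D (A u) (B u) (B i)) := by
        have : s = 1 - t := by linarith
        subst this
        simp only [D, Prod.fst_add, Prod.snd_add, Prod.smul_fst, Prod.smul_snd, smul_eq_mul]
        ring
      have e2 : sg (τ c u) * D (A u) (B u) (s' • A j + t' • B j) =
          s' * (sg (τ c u) * D (A u) (B u) (A j)) + t' * (sg (τ c u) * D (A u) (B u) (B j)) := by
        have : s' = 1 - t' := by linarith
        subst this
        simp only [D, Prod.fst_add, Prod.snd_add, Prod.smul_fst, Prod.smul_snd, smul_eq_mul]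
        ring
      rw [h5, e1] at e2
      have p1 : 0 ≤ s * (sg (τ c u) * D (A u) (B u) (A i)) := mul_nonneg hs h3.1.le
      have p2 : 0 ≤ t * (sg (τ c u) * D (A u) (B u) (B i)) := mul_nonneg ht h3.2.le
      have p3 : s' * (sg (τ c u) * D (A u) (B u) (A j)) ≤ 0 := mul_nonpos_of_nonneg_of_nonpos hs' h2.1.le
      have p4 : t' * (sg (τ c u) * D (A u) (B u) (B j)) ≤ 0 := mul_nonpos_of_nonneg_of_nonpos ht' h2.2.le
      rcases eq_or_lt_of_le hs with h7 | h7
      · have : t = 1 := by linarith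
        rw [← h7, this] at e2
        linarith [h3.2]
      · have := mul_pos h7 h3.1
        linarith

end Pool.Agent.helper76.AP
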