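import Pool.Agent.helper76.AP.Free
import Pool.Agent.helper14.AV.Fin0

/-!
# The path for families with a binary space partition without cuts (MP_801ee0_co)
-/

set_option autoImplicit false

namespace Pool.Agent.helper76.AP

open Pool.Agent.helper14.AV

theorem main_free (hJOI : JOI_stmt) (hLMZ : LMZ_stmt) (hPTH : PTH_stmt)
    (hFNL : FNL_stmt) (n : ℕ) (A B : Fin n → ℝ × ℝ) (hne : ∀ i, A i ≠ B i)
    (hF : FreeBSP A B Finset.univ ∅) (k : ℕ)
    (hk : ∀ (V : Type) [Fintype V] (T : SimpleGraph V), T.IsTree → Fintype.card V = n + 1 →
      HasCaterpillar T k) : CompatiblePath A B k := by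
  obtain ⟨V, hV, T, e, anc, τ, hcard, hS⟩ := set_free hJOI (Fin n) A B hne hF
  rw [Fintype.card_fin] at hcard
  obtain ⟨w, h1, h2, h3, h4⟩ := hPTH (Fin n) V A B T e anc τ k hS (hk V T hS.1 hcard)
  exact hFNL n A B w k h1 h2 hne (free_disjoint hJOI A B hne hF) (COM A B T e anc τ hS hLMZ w h2 h3) h4

theorem onSide_of_mul {ι : Type} (A B : ι → ℝ × ℝ) (v j : ι) (h : 0 < D (A v) (B v) (A j) * D (A v) (B v) (B j)) :
    OnSide A B true v j ∨ OnSide A B false v j := by
  rcases pos_and_pos_or_neg_and_neg_of_mul_pos h with ⟨h1, h2⟩ | ⟨h1, h2⟩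
  · left
    simp only [OnSide, sg, if_true, one_mul]
    exact ⟨h1, h2⟩
  · right
    simp only [OnSide, sg, Bool.false_eq_true, if_false]
    constructor <;> linarith

/-- if no segment meets the line of another one then every set of segments has a partition without cuts -/
theorem free_of_unstabbed {ι : Type} [DecidableEq ι] (A B : ι → ℝ × ℝ)
    (hs : ∀ i j, i ≠ j → 0 < D (A i) (B i) (A j) * D (A i) (B i) (B j)) :
    ∀ (n : ℕ) (I W : Finset ι), I.card = n → Disjoint I W → FreeBSP A B I W := by
  classical
  intro n
  induction n using Nat.strong_induction_on with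
  | _ n ih =>
    intro I W hn hd
    rcases I.eq_empty_or_nonempty with rfl | ⟨v, hv⟩
    · exact FreeBSP.empty W
    · have hvW : v ∉ W := Finset.disjoint_left.1 hd hv
      have key : ∀ j, j ≠ v → (OnSide A B true v j ∨ OnSide A B false v j) := fun j hj =>
        onSide_of_mul A B v j (hs v j (Ne.symm hj))
      have e1 : I = insert v ((I.erase v).filter (fun j => OnSide A B true v j) ∪
          (I.erase v).filter (fun j => OnSide A B false v j)) := by
        ext j
        simp only [Finset.mem_insert, Finset.mem_union, Finset.mem_filter, Finset.mem_erase]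
        constructor
        · intro hj
          by_cases h : j = v
          · exact Or.inl h
          · rcases key j h with h1 | h1
            · exact Or.inr (Or.inl ⟨⟨h, hj⟩, h1⟩)
            · exact Or.inr (Or.inr ⟨⟨h, hj⟩, h1⟩)
        · rintro (rfl | ⟨⟨_, h⟩, _⟩ | ⟨⟨_, h⟩, _⟩)
          · exact hv
          · exact h
          · exact h
      have e2 : W = W.filter (fun j => OnSide A B true v j) ∪ W.filter (fun j => OnSide A B false v j) := by
        ext j
        simp only [Finset.mem_union, Finset.mem_filter]
        constructor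
        · intro hj
          rcases key j (fun h => hvW (h ▸ hj)) with h1 | h1
          · exact Or.inl ⟨hj, h1⟩
          · exact Or.inr ⟨hj, h1⟩
        · rintro (⟨h, _⟩ | ⟨h, _⟩) <;> exact h
      have c1 : ∀ b : Bool, ((I.erase v).filter (fun j => OnSide A B b v j)).card < n := by
        intro b
        have h1 := Finset.card_filter_le (I.erase v) (fun j => OnSide A B b v j)
        rw [Finset.card_erase_of_mem hv, hn] at h1
        have h2 := Finset.card_pos.2 ⟨v, hv⟩
        omega
      have d1 : ∀ b : Bool, Disjoint ((I.erase v).filter (fun j => OnSide A B b v j))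
          (insert v (W.filter (fun j => OnSide A B b v j))) := by
        intro b
        rw [Finset.disjoint_left]
        intro j h1 h2
        rw [Finset.mem_filter, Finset.mem_erase] at h1
        rcases Finset.mem_insert.1 h2 with h3 | h3
        · exact h1.1.1 h3
        · exact Finset.disjoint_left.1 hd h1.1.2 (Finset.mem_filter.1 h3).1
      rw [e1, e2]
      refine FreeBSP.cut v _ _ _ _ ?_ ?_ (ih _ (c1 true) _ _ rfl (d1 true)) (ih _ (c1 false) _ _ rfl (d1 false))
      · intro j hj
        rcases Finset.mem_union.1 hj with h | h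
        · exact (Finset.mem_filter.1 h).2
        · exact (Finset.mem_filter.1 h).2
      · intro j hj
        rcases Finset.mem_union.1 hj with h | h
        · exact (Finset.mem_filter.1 h).2
        · exact (Finset.mem_filter.1 h).2

end Pool.Agent.helper76.AP
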